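import Pool.Agent.Helper77.G.LemmaQ
import Pool.Agent.BICS.Defs

/-!
# The snake through a rectangle of the grid
-/

open Set BIC
open scoped Matroid

namespace C1Q

variable {α : Type*}

/-- the vertex at the position `z` of the snake -/
def sn (q z : ℕ) : ℕ × ℕ := (z / q, if (z / q) % 2 = 0 then z % q else q - 1 - z % q)

/-- the position of a vertex in the snake -/
def pos (q : ℕ) (p : ℕ × ℕ) : ℕ := p.1 * q + if p.1 % 2 = 0 then p.2 else q - 1 - p.2

/-- the position for the rectangle with corner `(x, y)` -/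
def posAt (q x y : ℕ) (p : ℕ × ℕ) : ℕ := pos q (p.1 - x, p.2 - y)

lemma pos_lt {q H : ℕ} {p : ℕ × ℕ} (h1 : p.1 < H) (h2 : p.2 < q) : pos q p < H * q := by
  unfold pos
  have h3 : (p.1 + 1) * q ≤ H * q := Nat.mul_le_mul_right _ h1
  have h4 : (p.1 + 1) * q = p.1 * q + q := by ring
  split_ifs <;> omega

lemma pos_mem_Ico {q s t : ℕ} {p : ℕ × ℕ} (h0 : s ≤ p.1) (h1 : p.1 < t) (h2 : p.2 < q) :
    pos q p ∈ Ico (s * q) (t * q) := by
  refine ⟨?_, pos_lt h1 h2⟩
  unfold pos
  have : s * q ≤ p.1 * q := Nat.mul_le_mul_right _ h0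
  omega

lemma pos_div {q : ℕ} {p : ℕ × ℕ} (h2 : p.2 < q) : pos q p / q = p.1 := by
  have hq : 0 < q := by omega
  unfold pos
  rw [mul_comm, Nat.mul_add_div hq]
  have : (if p.1 % 2 = 0 then p.2 else q - 1 - p.2) / q = 0 := by
    apply Nat.div_eq_of_lt
    split_ifs <;> omega
  omega

lemma pos_mod {q : ℕ} {p : ℕ × ℕ} (h2 : p.2 < q) :
    pos q p % q = if p.1 % 2 = 0 then p.2 else q - 1 - p.2 := by
  unfold pos
  rw [mul_comm, Nat.mul_add_mod]
  apply Nat.mod_eq_of_lt
  split_ifs <;> omega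

lemma sn_pos {q : ℕ} {p : ℕ × ℕ} (h2 : p.2 < q) : sn q (pos q p) = p := by
  unfold sn
  rw [pos_div h2, pos_mod h2]
  ext
  · rfl
  · simp only
    split_ifs <;> omega

lemma pos_sn {q z : ℕ} (hq : 0 < q) : pos q (sn q z) = z := by
  have h1 := Nat.div_add_mod z q
  have h2 := Nat.mod_lt z hq
  unfold pos sn
  simp only
  rw [mul_comm]
  split_ifs <;> omega

lemma sn_snd_lt {q z : ℕ} (hq : 0 < q) : (sn q z).2 < q := by
  have h2 := Nat.mod_lt z hq
  unfold sn
  simp only
  split_ifs <;> omega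

lemma sn_fst_lt {q z H : ℕ} (hz : z < H * q) : (sn q z).1 < H :=
  Nat.div_lt_of_lt_mul (by rwa [mul_comm] at hz)

/-- consecutive positions are adjacent vertices -/
lemma sn_adj {q z : ℕ} (hq : 0 < q) : BICS.adj (sn q z) (sn q (z + 1)) := by
  have h1 := Nat.div_add_mod z q
  have h2 := Nat.mod_lt z hq
  by_cases h : z % q + 1 < q
  · have e1 : (z + 1) / q = z / q := by
      rw [show z + 1 = q * (z / q) + (z % q + 1) by omega, Nat.mul_add_div hq,
        Nat.div_eq_of_lt h]
      simp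
    have e2 : (z + 1) % q = z % q + 1 := by
      rw [show z + 1 = q * (z / q) + (z % q + 1) by omega, Nat.mul_add_mod,
        Nat.mod_eq_of_lt h]
    left
    unfold sn
    rw [e1, e2]
    refine ⟨rfl, ?_⟩
    simp only
    split_ifs <;> omega
  · have e0 : z % q = q - 1 := by omega
    have e3 : z + 1 = q * (z / q + 1) := by
      rw [Nat.mul_add, mul_one]; omega
    have e1 : (z + 1) / q = z / q + 1 := by
      rw [e3, Nat.mul_div_cancel_left _ hq]
    have e2 : (z + 1) % q = 0 := by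
      rw [e3, Nat.mul_mod_right]
    right
    unfold sn
    rw [e1, e2, e0]
    refine ⟨?_, Or.inl rfl⟩
    simp only
    split_ifs <;> omega

/-- the rung `j` between the rows `s` and `s + 1` -/
lemma sn_rung {q s j : ℕ} (hj : j < q) :
    BICS.adj (sn q (s * q + q - 1 - j)) (sn q (s * q + q + j)) := by
  have hq : 0 < q := by omega
  have e1 : (s * q + q - 1 - j) / q = s := by
    rw [show s * q + q - 1 - j = q * s + (q - 1 - j) by rw [mul_comm]; omega, Nat.mul_add_div hq,
      Nat.div_eq_of_lt (by omega), add_zero]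
  have e2 : (s * q + q - 1 - j) % q = q - 1 - j := by
    rw [show s * q + q - 1 - j = q * s + (q - 1 - j) by rw [mul_comm]; omega, Nat.mul_add_mod,
      Nat.mod_eq_of_lt (by omega)]
  have e3 : (s * q + q + j) / q = s + 1 := by
    rw [show s * q + q + j = q * (s + 1) + j by ring, Nat.mul_add_div hq,
      Nat.div_eq_of_lt hj, add_zero]
  have e4 : (s * q + q + j) % q = j := by
    rw [show s * q + q + j = q * (s + 1) + j by ring, Nat.mul_add_mod, Nat.mod_eq_of_lt hj]
  right
  unfold sn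
  rw [e1, e2, e3, e4]
  refine ⟨?_, Or.inl rfl⟩
  simp only
  split_ifs <;> omega

section rect

variable {S : Set α} {ends : α → Sym2 (ℕ × ℕ)} {q x y H : ℕ}

lemma posAt_mem {p : ℕ × ℕ} (hp : p ∈ BICS.rect x y H q) : posAt q x y p ∈ Ico 0 (H * q) := by
  obtain ⟨h1, h2, h3, h4⟩ := hp
  refine ⟨Nat.zero_le _, pos_lt ?_ ?_⟩
  · simp only; omega
  · simp only; omega

lemma posAt_inj : InjOn (posAt q x y) (BICS.rect x y H q) := by
  rintro p ⟨h1, h2, h3, h4⟩ p' ⟨h1', h2', h3', h4'⟩ h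
  have e1 := sn_pos (q := q) (p := (p.1 - x, p.2 - y)) (by simp only; omega)
  have e2 := sn_pos (q := q) (p := (p'.1 - x, p'.2 - y)) (by simp only; omega)
  unfold posAt at h
  rw [h, e2] at e1
  have e3 := congrArg Prod.fst e1
  have e4 := congrArg Prod.snd e1
  simp only at e3 e4
  ext <;> omega

/-- the labelling of the elements by positions -/
def endsAt (ends : α → Sym2 (ℕ × ℕ)) (q x y : ℕ) (e : α) : Sym2 ℕ := (ends e).map (posAt q x y)

lemma mem_endsAt {e : α} {z : ℕ} : z ∈ endsAt ends q x y e ↔ ∃ p ∈ ends e, posAt q x y p = z := by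
  unfold endsAt
  rw [Sym2.mem_map]

lemma ins_endsAt_iff {e : α} {U : Set ℕ} : e ∈ ins (ins S ends (BICS.rect x y H q))
    (endsAt ends q x y) U ↔ e ∈ S ∧ ∀ p ∈ ends e, p ∈ BICS.rect x y H q ∧ posAt q x y p ∈ U := by
  unfold ins
  simp only [mem_ofPred_eq, mem_endsAt]
  constructor
  · rintro ⟨⟨h1, h2⟩, h3⟩
    exact ⟨h1, fun p hp => ⟨h2 p hp, h3 _ ⟨p, hp, rfl⟩⟩⟩
  · rintro ⟨h1, h2⟩
    refine ⟨⟨h1, fun p hp => (h2 p hp).1⟩, ?_⟩
    rintro z ⟨p, hp, rfl⟩
    exact (h2 p hp).2

/-- a block of the grid lies in the rows of the snake -/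
lemma blk_sub {s c : ℕ} (hs : s + c ≤ H) (hc : c ≤ q) : BICS.blk S ends (x + s) y c ⊆
    ins (ins S ends (BICS.rect x y H q)) (endsAt ends q x y) (Ico (s * q) ((s + c) * q)) := by
  intro e he
  rw [ins_endsAt_iff]
  refine ⟨he.1, fun p hp => ?_⟩
  obtain ⟨h1, h2, h3, h4⟩ := he.2 p hp
  refine ⟨⟨by omega, by omega, by omega, by omega⟩, pos_mem_Ico ?_ ?_ ?_⟩
  · simp only; omega
  · simp only; omega
  · simp only; omega

/-- the snake of a rectangle -/
theorem exists_block {m a b : ℕ} (hG : BICS.Grd S ends a b m m)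
    (hsub : BICS.rect x y H q ⊆ BICS.rect a b m m) (hq : 2 ≤ q) (hH : 1 ≤ H) :
    ∃ el rg, Block (ins S ends (BICS.rect x y H q)) (endsAt ends q x y) el rg q H := by
  classical
  -- elements between adjacent positions
  have hex : ∀ z z' : ℕ, z < H * q → z' < H * q → BICS.adj (sn q z) (sn q z') →
      ∃ e ∈ ins S ends (BICS.rect x y H q), endsAt ends q x y e = s(z, z') := by
    intro z z' hz hz' hadj
    have m1 : ((sn q z).1 + x, (sn q z).2 + y) ∈ BICS.rect x y H q := by
      have h1 := sn_fst_lt hz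
      have h2 := sn_snd_lt (z := z) (q := q) (by omega)
      refine ⟨?_, ?_, ?_, ?_⟩ <;> simp only <;> omega
    have m2 : ((sn q z').1 + x, (sn q z').2 + y) ∈ BICS.rect x y H q := by
      have h1 := sn_fst_lt hz'
      have h2 := sn_snd_lt (z := z') (q := q) (by omega)
      refine ⟨?_, ?_, ?_, ?_⟩ <;> simp only <;> omega
    obtain ⟨e, he, hee⟩ := hG.surj ((sn q z).1 + x, (sn q z).2 + y)
      ((sn q z').1 + x, (sn q z').2 + y) (by
        unfold BICS.adj at hadj ⊢
        simp only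
        omega) (hsub m1) (hsub m2)
    refine ⟨e, ⟨he, fun p hp => ?_⟩, ?_⟩
    · rw [hee] at hp
      rcases Sym2.mem_iff.1 hp with rfl | rfl
      · exact m1
      · exact m2
    · unfold endsAt
      rw [hee, Sym2.map_mk]
      simp only [posAt, Nat.add_sub_cancel]
      rw [show ((sn q z).1, (sn q z).2) = sn q z from rfl,
        show ((sn q z').1, (sn q z').2) = sn q z' from rfl, pos_sn (by omega), pos_sn (by omega)]
  have hHq : 2 ≤ H * q := by
    calc 2 ≤ q := hq
      _ = 1 * q := (one_mul q).symm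
      _ ≤ H * q := Nat.mul_le_mul_right _ hH
  obtain ⟨e₀, _, _⟩ := hex 0 1 (by omega) (by omega) (sn_adj (by omega))
  have : Nonempty α := ⟨e₀⟩
  have h1 : ∀ z, ∃ e, z + 1 < H * q → e ∈ ins S ends (BICS.rect x y H q) ∧
      endsAt ends q x y e = s(z, z + 1) := by
    intro z
    by_cases hz : z + 1 < H * q
    · obtain ⟨e, h2, h3⟩ := hex z (z + 1) (by omega) hz (sn_adj (by omega))
      exact ⟨e, fun _ => ⟨h2, h3⟩⟩
    · exact ⟨e₀, fun h => absurd h hz⟩
  have h2 : ∀ s j, ∃ e, s + 1 < H → j < q → e ∈ ins S ends (BICS.rect x y H q) ∧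
      endsAt ends q x y e = s(s * q + q - 1 - j, s * q + q + j) := by
    intro s j
    by_cases hz : s + 1 < H ∧ j < q
    · have h5 : (s + 2) * q ≤ H * q := Nat.mul_le_mul_right _ hz.1
      have h6 : (s + 2) * q = s * q + q + q := by ring
      obtain ⟨e, h3, h4⟩ := hex (s * q + q - 1 - j) (s * q + q + j) (by omega) (by omega)
        (sn_rung hz.2)
      exact ⟨e, fun _ _ => ⟨h3, h4⟩⟩
    · exact ⟨e₀, fun h h' => absurd ⟨h, h'⟩ hz⟩
  choose el hel using h1
  choose rg hrg using h2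
  refine ⟨el, rg, ⟨fun z hz => (hel z hz).1, fun z hz => (hel z hz).2, ?_⟩,
    fun s hs => ⟨fun j hj => (hrg s j hs hj).1, fun j hj => (hrg s j hs hj).2⟩⟩
  intro e he u v huv huv'
  subst huv'
  obtain ⟨p, p', hpp, hadj, _, _⟩ := hG.mem e he.1
  have hp := he.2 p (by rw [hpp]; exact Sym2.mem_mk_left _ _)
  have hp' := he.2 p' (by rw [hpp]; exact Sym2.mem_mk_right _ _)
  unfold endsAt at huv
  rw [hpp, Sym2.map_mk, Sym2.eq_iff] at huv
  have hne : p ≠ p' := by
    rintro rfl
    unfold BICS.adj at hadj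
    omega
  apply hne
  apply posAt_inj hp hp'
  rcases huv with h | h
  · rw [h.1, h.2]
  · rw [h.1, h.2]

/-- transfer of the bicircular structure to the positions -/
theorem Bic_endsAt {N : Matroid α} (hB : Bic N S ends) :
    Bic N (ins S ends (BICS.rect x y H q)) (endsAt ends q x y) := by
  classical
  refine ⟨fun e he => hB.sub he.1, ?_, ?_⟩
  · intro F φ hF hφ hφe
    have h1 : ∀ e, ∃ p, e ∈ F → p ∈ ends e ∧ posAt q x y p = φ e := by
      intro e
      by_cases he : e ∈ F
      · obtain ⟨p, hp, hpe⟩ := mem_endsAt.1 (hφe e he)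
        exact ⟨p, fun _ => ⟨hp, hpe⟩⟩
      · exact ⟨(0, 0), fun h => absurd h he⟩
    choose ψ hψ using h1
    refine hB.ind F ψ (fun e he => (hF he).1) ?_ (fun e he => (hψ e he).1)
    intro e he e' he' h
    apply hφ he he'
    rw [← (hψ e he).2, ← (hψ e' he').2, h]
  · intro W
    have h1 : ins (ins S ends (BICS.rect x y H q)) (endsAt ends q x y) W ⊆
        ins S ends {p | p ∈ BICS.rect x y H q ∧ posAt q x y p ∈ W} := by
      intro e he
      rw [ins_endsAt_iff] at he
      exact he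
    refine (N.eRk_mono h1).trans ((hB.rk _).trans ?_)
    refine Set.encard_le_encard_of_injOn (f := posAt q x y) (fun p hp => hp.2) ?_
    exact posAt_inj.mono (fun p hp => hp.1)

end rect

end C1Q
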